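import Mathlib
import Pool.Agent.K1H50.NP.Win

/-!
# Five ninths of the iterates of every map: exact patterns along long narrow progressions of primes

The `j`-th iterate of `x ↦ a + d x` is `x ↦ a (1 + d + ... + d ^ (j - 1)) + d ^ j x`. For every `ε > 0` there
is `J` such that for every pair `(a, d)` of the question, `a ≠ 0`, there is `M` such that for EVERY multiple
`N` of `M` there is `L` such that among any `T ≥ L` consecutive multiples `j` of `N` at least `(5/9 - ε) T`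
are good: the pair of the `j`-th iterate satisfies the hypotheses of the question, and there is a set `E` of
at most `J` exponents, `j ∈ E`, such that for every `R` and every `l`, for some `C` and arbitrarily large
`X`, at least `X / (log X)^C` of the progressions of length `l` and of one and the same common difference
`≤ (log X)^C` below `X` consist of primes `q` for which among the first `R` iterates of `q` exactly those
with the exponents in `E` are prime.

The theorem on classes of linear forms with the constant `18/5`, with exact sets of primes and narrow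
progressions (`Pool.Agent.Y827.RO.bigE`), and the theorem on sets of differences of many classes
(`Pool.Agent.W142.TB.s_maiB`) are from the starting files.
-/

set_option autoImplicit false

namespace Pool.Agent.Results.MP_8bf9c2_nt.FiveNinthsOfIterates

open Finset Filter

/-- the value at `q` of the `j`-th iterate of `x ↦ a + d x` is a prime -/
def PrimeAt (a d : ℤ) (q j : ℕ) : Prop :=
  ∃ p : ℕ, p.Prime ∧ a * ∑ i ∈ range j, d ^ i + q * d ^ j = p

/-- `q` is a prime, and for `1 ≤ j ≤ R` the `j`-th iterate maps `q` to a prime if and only if `j ∈ E` -/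
def Pattern (a d : ℤ) (E : Finset ℕ) (R q : ℕ) : Prop :=
  q.Prime ∧ ∀ j ∈ Icc 1 R, PrimeAt a d q j ↔ j ∈ E

/-- Many narrow progressions of every length `l`: for some `C` and arbitrarily large `X` there is a common
difference `D ≤ (log X)^C` such that for at least `X / (log X)^C` of the positive integers `n ≤ X` the
numbers `n, n + D, ..., n + (l - 1) D` have the property `P`. -/
def Narrow (P : ℕ → Prop) : Prop :=
  ∀ l : ℕ, ∃ C : ℕ, ∃ᶠ X : ℕ in atTop, ∃ D : ℕ, 1 ≤ D ∧ (D : ℝ) ≤ Real.log X ^ C ∧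
    (X : ℝ) / Real.log X ^ C ≤ ({n : ℕ | 1 ≤ n ∧ n ≤ X ∧ ∀ i < l, P (n + i * D)}.ncard : ℝ)

/-- The pair of the `j`-th iterate satisfies the hypotheses of the question, and there is a set `E` of at
most `J` positive exponents, `j ∈ E`, such that for every `R` the primes `q` for which among the first `R`
iterates exactly those with the exponents in `E` are prime contain many narrow progressions of every
length. -/
def Good (J : ℕ) (a d : ℤ) (j : ℕ) : Prop :=
  Int.gcd (a * ∑ i ∈ range j, d ^ i) (d ^ j) = 1 ∧ 2 ∣ (a * ∑ i ∈ range j, d ^ i) * d ^ j ∧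
    ∃ E : Finset ℕ, 0 ∉ E ∧ E.card ≤ J ∧ j ∈ E ∧ ∀ R : ℕ, Narrow (Pattern a d E R)

theorem prime_iff (x : ℤ) : (∃ p : ℕ, p.Prime ∧ x = p) ↔ x.toNat.Prime := by
  constructor
  · rintro ⟨p, hp, rfl⟩
    rwa [Int.toNat_natCast]
  · intro h
    refine ⟨x.toNat, h, ?_⟩
    by_contra hne
    have h1 : x.toNat = 0 := by
      rw [Int.toNat_eq_zero]
      by_contra h2
      exact hne (Int.toNat_of_nonneg (by omega)).symm
    rw [h1] at h
    exact Nat.not_prime_zero h

open Pool.Agent.Y863.AU in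
theorem pattern_of {a d : ℤ} {E : Finset ℕ} {R q : ℕ}
    (h : Pool.Agent.K1H50.NP.Pt (⟨a, d⟩ : Af) E R q) : Pattern a d E R q := by
  refine ⟨h.1, fun j hj => ?_⟩
  rw [← h.2 j hj]
  unfold PrimeAt
  rw [prime_iff]
  have e : a * ∑ i ∈ range j, d ^ i + q * d ^ j = ((⟨a, d⟩ : Af) ^ j).ev q := by
    unfold Af.ev
    rw [Af.pow_a, Af.pow_d]
    unfold Pool.Agent.W25.IT.itc
    ring
  rw [e]

theorem narrow_of {X : ℕ → Prop} (h : Pool.Agent.Y827.RO.Nar X) : Narrow X := by
  classical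
  intro l
  obtain ⟨C, hC⟩ := h l
  refine ⟨C, hC.mono ?_⟩
  rintro N ⟨D, h1, h2, h3⟩
  refine ⟨D, h1, h2, h3.trans ?_⟩
  rw [Nat.cast_le, ← Set.ncard_coe_finset]
  refine Set.ncard_le_ncard ?_ ((Set.finite_le_nat N).subset fun n hn => hn.2.1)
  intro n hn
  rw [mem_coe, mem_filter, mem_Icc] at hn
  exact ⟨hn.1.1, hn.1.2, hn.2⟩

theorem adm_pow {h : Pool.Agent.Y863.AU.Af} (hA : h.Adm) (j : ℕ) : (h ^ j).Adm := by
  cases j with
  | zero => rw [pow_zero]; exact Pool.Agent.Y863.AU.Af.Adm_one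
  | succ j =>
    rw [pow_succ]
    exact Pool.Agent.Y863.AU.Af.adm_pow_mul hA hA rfl j

open Pool.Agent.Y863.AU in
theorem result : ∀ ε : ℝ, 0 < ε → ∃ J : ℕ, ∀ a d : ℤ, 1 ≤ d → Int.gcd a d = 1 → 2 ∣ a * d → a ≠ 0 →
    ∃ M : ℕ, 0 < M ∧ ∀ N : ℕ, 0 < N → M ∣ N → ∃ L : ℕ, ∀ T : ℕ, L ≤ T → ∀ u : ℕ,
      (5 / 9 - ε) * (T : ℝ) ≤ ({k : ℕ | u < k ∧ k ≤ u + T ∧ Good J a d (N * k)}.ncard : ℝ) := by
  intro ε hε
  obtain ⟨J, hJ⟩ := Pool.Agent.K1H50.NP.winF ε hε
  refine ⟨J, fun a d hd hg h2 ha => ?_⟩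
  have hA : (⟨a, d⟩ : Af).Adm := ⟨hg, h2⟩
  obtain ⟨M, hM, h⟩ := hJ ⟨a, d⟩ hd hA (fun h1 => ha (congrArg Af.a h1))
  refine ⟨M, hM, fun N hN hMN => ?_⟩
  obtain ⟨L, hL⟩ := h N hN hMN
  refine ⟨L, fun T hT u => (hL T hT u).trans ?_⟩
  rw [Nat.cast_le]
  refine Set.ncard_le_ncard ?_ ((Set.finite_Ioc u (u + T)).subset fun k hk => ⟨hk.1, hk.2.1⟩)
  rintro k ⟨hk1, hk2, E, hE0, hEJ, hEj, hER⟩
  have h3 : ((⟨a, d⟩ : Af) ^ (N * k)).Adm := adm_pow hA _
  have h4 : Int.gcd ((⟨a, d⟩ : Af) ^ (N * k)).a ((⟨a, d⟩ : Af) ^ (N * k)).d = 1 := h3.1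
  have h5 : 2 ∣ ((⟨a, d⟩ : Af) ^ (N * k)).a * ((⟨a, d⟩ : Af) ^ (N * k)).d := h3.2
  rw [Af.pow_a, Af.pow_d] at h4 h5
  exact ⟨hk1, hk2, h4, h5, E, hE0, hEJ, hEj, fun R => narrow_of ((hER R).mono fun q hq => pattern_of hq)⟩

end Pool.Agent.Results.MP_8bf9c2_nt.FiveNinthsOfIterates
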