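import Mathlib
import Pool.Agent.K1H86.TZ.Cor

/-!
# Infinite chains of pairs with prime values in all finite exact patterns

Let countably many infinite chains of maps `x ↦ b t + D t x` (with `D t` dividing `D (t + 1)`) be given, for
instance the iterates of all the maps `x ↦ a + d x`. Every infinite set of indices has an infinite subset `T`
such that, for each of the chains, every set `J` (finite or infinite) of sufficiently large members of `T` is
the exact set, up to any given bound, of the indices `t` for which the quotient map, with the pair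
`(b t - (D t / D s) b s, D t / D s)`, `s = min J`, takes a prime value at `q`, for many primes `q`. The bound
for the members of `J` does not depend on the size of `J`.

The multidimensional sieve of Maynard and Tao in the form of the starting files is used for products of
weights over infinitely many blocks, together with the argument of Bergelson for finitely additive limits
and the theorem of Galvin.
-/

set_option autoImplicit false

namespace Pool.Agent.Results.MP_8bf9c2_nt.InfiniteChains

open Filter
open Pool.Agent.K1H86.PP (Seq Often Often.mono)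
open Pool.Agent.K1H86.TZ (full_all Full Full.chain)

/-- the integer `m` is a prime number -/
def IsP (m : ℤ) : Prop := ∃ p : ℕ, p.Prime ∧ m = p

theorem result (ι : Type) [Countable ι] (b D : ι → ℕ → ℤ)
    (hbD : ∀ i t, 1 ≤ D i t ∧ Int.gcd (b i t) (D i t) = 1 ∧ D i t ∣ D i (t + 1))
    (hinj : ∀ i, Function.Injective (fun t => (b i t, D i t))) (A : Set ℕ) (hA : A.Infinite) :
    ∃ T ⊆ A, T.Infinite ∧ ∀ i : ι, ∃ t₀ : ℕ,
      ∀ J : Set ℕ, J ⊆ T → (∀ t ∈ J, t₀ ≤ t) → ∀ s ∈ J, (∀ t ∈ J, s ≤ t) →
        ∀ (k : ℕ) (R : Finset (ℤ × ℤ)), (∀ r ∈ R, 1 ≤ r.1 ∧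
          ∀ t, (r.1 * D i s, r.1 * b i s + r.2) ≠ (D i t, b i t)) →
          ∃ C : ℕ, ∃ᶠ x : ℝ in atTop, x / Real.log x ^ C ≤ (Set.ncard {q : ℕ | (q : ℝ) ≤ x ∧ q.Prime ∧
            (∀ t, s ≤ t → t ≤ k →
              (IsP ((b i t - D i t / D i s * b i s) + q * (D i t / D i s)) ↔ t ∈ J)) ∧
            ∀ r ∈ R, ¬ (r.2 + q * r.1).natAbs.Prime} : ℝ) := by
  classical
  have hseq : ∀ i, Seq (fun t => (D i t, b i t)) := fun i =>
    { pos := fun t => by
        have := (hbD i t).1
        show 0 < D i t
        omega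
      prim := fun t => (Int.isCoprime_iff_gcd_eq_one.2 (hbD i t).2.1).symm
      inj := by
        intro s t hst
        apply hinj i
        simp only [Prod.mk.injEq] at hst ⊢
        exact ⟨hst.2, hst.1⟩ }
  obtain ⟨T, hTA, hT, hTE⟩ := full_all (fun i t => (D i t, b i t)) hseq A hA
  refine ⟨T, hTA, hT, fun i => ?_⟩
  obtain ⟨t₀, ht₀⟩ := hTE i
  refine ⟨t₀, fun J hJ hJt s hs hmin k R hR => ?_⟩
  have hdvd : ∀ s t, s ≤ t → D i s ∣ D i t := by
    intro s t hst
    induction t, hst using Nat.le_induction with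
    | base => exact dvd_rfl
    | succ t _ ih => exact ih.trans (hbD i t).2.2
  set J' : Finset ℕ := (Finset.range (k + s + 1)).filter (fun t => t ∈ J) with hJ'
  have hJJ : ∀ t ∈ J', t ∈ J := fun t ht => (Finset.mem_filter.1 ht).2
  obtain ⟨C, hC⟩ := Full.chain (hseq i) ht₀ J' (fun t ht => ⟨hJ (hJJ t ht), hJt t (hJJ t ht)⟩)
    (Finset.mem_filter.2 ⟨Finset.mem_range.2 (by omega), hs⟩)
    ((Finset.range (k + 1)).filter (fun t => s ≤ t))
    (by
      intro t ht
      rcases Finset.mem_union.1 ht with ht | ht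
      · exact hdvd s t (hmin t (hJJ t ht))
      · exact hdvd s t (Finset.mem_filter.1 ht).2) R hR
  refine ⟨C, hC.mono fun q hq => ⟨hq.1, fun t hst htk => ?_, hq.2.2.2⟩⟩
  have h1 := hq.2.2.1 t
    (Finset.mem_union_right _ (Finset.mem_filter.2 ⟨Finset.mem_range.2 (by omega), hst⟩))
  have h2 : t ∈ J' ↔ t ∈ J :=
    ⟨hJJ t, fun h => Finset.mem_filter.2 ⟨Finset.mem_range.2 (by omega), h⟩⟩
  rw [h2] at h1
  exact h1

end Pool.Agent.Results.MP_8bf9c2_nt.InfiniteChains
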