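import Mathlib
import Pool.Agent.K1H86.PP.Pats

/-!
# A positive proportion of pairs `(a, d)` for which `a + q d` is the first prime after `q d`

For a positive proportion of the pairs `(a, d)` of positive integers there are infinitely many primes `q`
such that `a + q d` is prime while, for a prescribed finite set `R` of other linear forms `c + e x`, none of
the numbers `|c + q e|` is prime; in particular `a + q d` is the smallest prime above `q d` for infinitely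
many primes `q`.

The theorem on exact prime values of 45 linear forms (`Pool.Agent.Y876.FF`) is from the starting files.
-/

set_option autoImplicit false

namespace Pool.Agent.Results.MP_8bf9c2_nt.IsolatedPairs

open Filter

/-- for every finite set `R` of pairs `(e, c)`, `e ≥ 1`, different from `(1, 0)` and `(d, a)` there are, for
arbitrarily large `x`, at least `x / (log x) ^ B` primes `q ≤ x` such that `a + q d` is prime and no number
`|c + q e|`, `(e, c) ∈ R`, is prime -/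
def Isolated (B : ℕ) (a d : ℤ) : Prop :=
  ∀ R : Finset (ℤ × ℤ), (∀ r ∈ R, 1 ≤ r.1 ∧ r ≠ (1, 0) ∧ r ≠ (d, a)) →
    ∃ᶠ x : ℝ in atTop, x / Real.log x ^ B ≤ (Set.ncard {q : ℕ | (q : ℝ) ≤ x ∧ q.Prime ∧
      (∃ p : ℕ, p.Prime ∧ a + q * d = p) ∧ ∀ r ∈ R, ¬ (r.2 + q * r.1).natAbs.Prime} : ℝ)

theorem result : ∃ (B : ℕ) (c : ℝ), 0 < c ∧ ∃ Y₀ : ℕ, ∀ X Y : ℕ, Y₀ ≤ Y → Y ≤ X →
    c * X * Y ≤ (Set.ncard {ad : ℤ × ℤ | 1 ≤ ad.1 ∧ ad.1 ≤ X ∧ 1 ≤ ad.2 ∧ ad.2 ≤ Y ∧
      Int.gcd ad.1 ad.2 = 1 ∧ 2 ∣ ad.1 * ad.2 ∧ Isolated B ad.1 ad.2 ∧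
      {q : ℕ | q.Prime ∧ ∃ p : ℕ, p.Prime ∧ ad.1 + q * ad.2 = p ∧
        ∀ p' : ℕ, p'.Prime → q * ad.2 < p' → p ≤ p'}.Infinite} : ℝ) := by
  obtain ⟨c, hc, Y₀, hY⟩ := Pool.Agent.K1H86.PP.iso_proportion
  refine ⟨Pool.Agent.K1H86.PP.C45, c, hc, Y₀, fun X Y h1 h2 =>
    (hY X Y h1 h2).trans (Nat.cast_le.2 (Set.ncard_le_ncard ?_ ?_))⟩
  · rintro ad ⟨h3, h4, h5, h6, h7, h8⟩
    refine ⟨h3, h4, h5, h6, Pool.Agent.K1H86.PP.gcd_of_good (by omega) h8.good,
      Dvd.dvd.mul_right h7 _, h8, ?_⟩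
    have h9 := h8 ((Finset.Ioo 0 ad.1).image (fun b => (ad.2, b))) (by
      intro r hr
      rw [Finset.mem_image] at hr
      obtain ⟨b, hb, rfl⟩ := hr
      rw [Finset.mem_Ioo] at hb
      refine ⟨h5, ?_, ?_⟩
      · intro h
        rw [Prod.mk.injEq] at h
        omega
      · intro h
        rw [Prod.mk.injEq] at h
        omega)
    refine h9.infinite.mono ?_
    rintro q ⟨hq, ⟨p, hp, hpe⟩, hR⟩
    refine ⟨hq, p, hp, hpe, fun p' hp' hlt => ?_⟩
    by_contra hcon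
    push Not at hcon
    have h10 : (p' : ℤ) < p := by exact_mod_cast hcon
    have h11 := hR (ad.2, (p' : ℤ) - q * ad.2) (by
      rw [Finset.mem_image]
      refine ⟨(p' : ℤ) - q * ad.2, ?_, rfl⟩
      rw [Finset.mem_Ioo]
      constructor
      · linarith
      · linarith)
    apply h11
    have h12 : ((p' : ℤ) - q * ad.2) + q * ad.2 = p' := by ring
    simp only
    rw [h12]
    simpa using hp'
  · apply ((Set.finite_Icc (1 : ℤ) X).prod (Set.finite_Icc (1 : ℤ) Y)).subset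
    rintro ad ⟨h1, h2, h3, h4, _⟩
    exact ⟨⟨h1, h2⟩, h3, h4⟩

end Pool.Agent.Results.MP_8bf9c2_nt.IsolatedPairs
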