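import Mathlib
import Pool.Agent.K1H50.NP.FinN

/-!
# At least one third of the first iterates of almost all maps: long narrow progressions, exact patterns

The pair `h = (a, d)` stands for the map `x ↦ a + d x`. Let `f` and `g ≠ id` be pairs which satisfy the
hypotheses of the question, with `f g = g^m f` (that is, `g` is a translation and `m` is the slope of `f`,
or `f` and `g` commute and `m = 1`). For every `n` and almost all `k` (density one in every long interval)
for which `h = g^k f` satisfies the hypotheses of the question, at least `n` of the first `3 n` iterates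
`h, h^2, ..., h^(3n)` (of the first `9 n / 2`, if `3 ∣ d - 1` and `3 ∤ a` for `h = (a, d)`) are good: a pair
`h^j` is good if there is a set `T` of exponents, `j ∈ T`, with at most `B` elements (`B` is an absolute
constant), such that for every `R` and every `l`, for arbitrarily large `N`, at least `N / (log N)^C` of the
progressions of length `l` and of one and the same common difference `≤ (log N)^C` consist of primes `q`
for which among the first `R` iterates of `q` under `h` exactly those with the exponents in `T` are prime.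

Examples. (1) `g(x) = x + 2`: for every slope `d` and almost all `a` one of the first three (four) iterates of
`x ↦ a + d x` maps all members of arbitrarily long progressions of primes to primes. (2) `f = id`: for
every `g = (a, d)` and almost all `k` one of `g^k, g^{2k}, g^{3k}`. (3) Maps with a common fixed point.

The theorem on classes of linear forms with the constant `18/5`, with exact sets of primes and narrow
progressions (`Pool.Agent.Y827.RO.bigE`), the density Hales-Jewett theorem (`Pool.Agent.H602R3.DHJ`) and the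
argument for almost all maps (`Pool.Agent.Y863.AU`) are from the starting files.
-/

set_option autoImplicit false

namespace Pool.Agent.Results.MP_8bf9c2_nt.ProgressionsForAlmostAllMaps

open Finset Filter

/-- the composition `x ↦ g (f x)`, where the pair `(a, d)` stands for the map `x ↦ a + d x` -/
def comp (g f : ℤ × ℤ) : ℤ × ℤ := (g.1 + g.2 * f.1, g.2 * f.2)

/-- `x ↦ g^k (f x)` -/
def pw (g : ℤ × ℤ) (k : ℕ) (f : ℤ × ℤ) : ℤ × ℤ := (comp g)^[k] f

/-- the `j`-th iterate of `h` -/
def it (h : ℤ × ℤ) (j : ℕ) : ℤ × ℤ := pw h j (0, 1)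

/-- the hypotheses of the question -/
def Adm (f : ℤ × ℤ) : Prop := 1 ≤ f.2 ∧ Int.gcd f.1 f.2 = 1 ∧ 2 ∣ f.1 * f.2

/-- `q` is a prime, and for `1 ≤ j ≤ R` the `j`-th iterate of `h` maps `q` to a prime if and only if
`j ∈ T` -/
def Pattern (h : ℤ × ℤ) (T : Finset ℕ) (R q : ℕ) : Prop :=
  q.Prime ∧ ∀ j ∈ Icc 1 R, (∃ p : ℕ, p.Prime ∧ (it h j).1 + q * (it h j).2 = p) ↔ j ∈ T

/-- Many narrow progressions of every length `l`: for some `C` and arbitrarily large `N` there is a common
difference `D ≤ (log N)^C` such that for at least `N / (log N)^C` of the `n ≤ N` the numbers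
`n, n + D, ..., n + (l - 1) D` have the property `X`. -/
def Narrow (X : ℕ → Prop) : Prop :=
  ∀ l : ℕ, ∃ C : ℕ, ∃ᶠ N : ℕ in atTop, ∃ D : ℕ, 1 ≤ D ∧ (D : ℝ) ≤ Real.log N ^ C ∧
    (N : ℝ) / Real.log N ^ C ≤ ({n : ℕ | 1 ≤ n ∧ n ≤ N ∧ ∀ i < l, X (n + i * D)}.ncard : ℝ)

/-- `h^j` satisfies the hypotheses of the question, and there is a set `T` of at most `B` positive exponents,
`j ∈ T`, such that for every `R` the primes `q` for which among the first `R` iterates under `h` exactly
those with the exponents in `T` are prime contain many narrow progressions of every length. -/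
def Good (B : ℕ) (h : ℤ × ℤ) (j : ℕ) : Prop :=
  Adm (it h j) ∧ ∃ T : Finset ℕ, 0 ∉ T ∧ T.card ≤ B ∧ j ∈ T ∧ ∀ R : ℕ, Narrow (Pattern h T R)

open Classical in
/-- `9 n / 2` if `3` divides `d - 1` and not `a`, otherwise `3 n`, for `h = (a, d)` -/
noncomputable def R (n : ℕ) (h : ℤ × ℤ) : ℕ := if 3 ∣ h.2 - 1 ∧ ¬ 3 ∣ h.1 then 9 * n / 2 else 3 * n

open Pool.Agent.Y863.AU in
/-- the bridge to the monoid of the library -/
def toAf (f : ℤ × ℤ) : Af := ⟨f.1, f.2⟩

open Pool.Agent.Y863.AU in
theorem toAf_pw (g f : ℤ × ℤ) (k : ℕ) : toAf (pw g k f) = toAf g ^ k * toAf f := by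
  unfold pw
  induction k with
  | zero => rw [pow_zero, one_mul]; rfl
  | succ k ih =>
    rw [Function.iterate_succ', Function.comp_apply, pow_succ', mul_assoc, ← ih]
    rfl

theorem eq_of_toAf {f g : ℤ × ℤ} (h : toAf f = toAf g) : f = g := by
  have h1 := congrArg Pool.Agent.Y863.AU.Af.a h
  have h2 := congrArg Pool.Agent.Y863.AU.Af.d h
  exact Prod.ext h1 h2

theorem toAf_it (h : ℤ × ℤ) (j : ℕ) : toAf (it h j) = toAf h ^ j := by
  unfold it
  rw [toAf_pw]
  have h1 : toAf (0, 1) = 1 := rfl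
  rw [h1, mul_one]

theorem prime_iff (x : ℤ) : (∃ p : ℕ, p.Prime ∧ x = p) ↔ x.toNat.Prime := by
  constructor
  · rintro ⟨p, hp, rfl⟩
    rwa [Int.toNat_natCast]
  · intro h
    refine ⟨x.toNat, h, ?_⟩
    by_contra hne
    have h1 : x.toNat = 0 := by
      rw [Int.toNat_eq_zero]
      by_contra h2
      exact hne (Int.toNat_of_nonneg (by omega)).symm
    rw [h1] at h
    exact Nat.not_prime_zero h

theorem pattern_iff (h : ℤ × ℤ) (T : Finset ℕ) (R q : ℕ) :
    Pattern h T R q ↔ Pool.Agent.K1H50.NP.Pt (toAf h) T R q := by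
  unfold Pattern Pool.Agent.K1H50.NP.Pt
  refine and_congr_right fun _ => forall₂_congr fun j _ => ?_
  rw [prime_iff, ← toAf_it]
  have e : (it h j).1 + (q : ℤ) * (it h j).2 = (toAf (it h j)).ev q := by
    unfold Pool.Agent.Y863.AU.Af.ev toAf
    ring
  rw [e]

theorem narrow_of {X : ℕ → Prop} (h : Pool.Agent.Y827.RO.Nar X) : Narrow X := by
  classical
  intro l
  obtain ⟨C, hC⟩ := h l
  refine ⟨C, hC.mono ?_⟩
  rintro N ⟨D, h1, h2, h3⟩
  refine ⟨D, h1, h2, h3.trans ?_⟩
  rw [Nat.cast_le, ← Set.ncard_coe_finset]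
  refine Set.ncard_le_ncard ?_ ((Set.finite_le_nat N).subset fun n hn => hn.2.1)
  intro n hn
  rw [mem_coe, mem_filter, mem_Icc] at hn
  exact ⟨hn.1.1, hn.1.2, hn.2⟩

theorem adm_pow {h : Pool.Agent.Y863.AU.Af} (hA : h.Adm) (j : ℕ) : (h ^ j).Adm := by
  cases j with
  | zero => rw [pow_zero]; exact Pool.Agent.Y863.AU.Af.Adm_one
  | succ j =>
    rw [pow_succ]
    exact Pool.Agent.Y863.AU.Af.adm_pow_mul hA hA rfl j

open Classical in
theorem result : ∃ B : ℕ, ∀ (n : ℕ) (ε : ℝ), 0 < ε → ∃ L : ℕ, ∀ m d d' : ℕ, 1 ≤ m →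
    ∀ u H : ℕ, L * m ^ ((9 * n / 2 + 1) ^ 2) ≤ H →
    ∀ f g : ℤ × ℤ, f.2 = d → g.2 = d' → Adm f → Adm g → g ≠ (0, 1) → comp f g = pw g m f →
      (((Ioc u (u + H)).filter (fun k : ℕ => Adm (pw g k f) ∧ pw g k f ≠ (0, 1) ∧
        ((Icc 1 (R n (pw g k f))).filter (fun j => Good B (pw g k f) j)).card < n)).card : ℝ) ≤
      ε * (((Ioc u (u + H)).filter (fun k : ℕ => Adm (pw g k f))).card : ℝ) := by
  obtain ⟨B, hB⟩ := Pool.Agent.K1H50.NP.mainN
  refine ⟨B, fun n ε hε => ?_⟩
  obtain ⟨L, hL⟩ := hB n ε hε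
  refine ⟨L, fun m d d' hm u H hH f g hfd hgd hf hg hg1 hfg => ?_⟩
  have hd : 1 ≤ d := by
    have h1 := hf.1
    rw [hfd] at h1
    exact_mod_cast h1
  have hd' : 1 ≤ d' := by
    have h1 := hg.1
    rw [hgd] at h1
    exact_mod_cast h1
  have hpos : ∀ k : ℕ, 1 ≤ (pw g k f).2 := by
    intro k
    have h1 : (pw g k f).2 = (toAf (pw g k f)).d := rfl
    rw [h1, toAf_pw, Pool.Agent.Y863.AU.Af.mul_d, Pool.Agent.Y863.AU.Af.pow_d]
    have h2 : 0 < (toAf g).d ^ k * (toAf f).d := by
      have h3 : 0 < (toAf g).d := by show 0 < g.2; omega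
      have h4 : 0 < (toAf f).d := by show 0 < f.2; omega
      positivity
    omega
  have hone : ∀ f : ℤ × ℤ, f ≠ (0, 1) ↔ toAf f ≠ 1 := by
    intro f
    constructor
    · intro h h1
      exact h (eq_of_toAf h1)
    · intro h h1
      exact h (by rw [h1]; rfl)
  have hrel : toAf f * toAf g = toAf g ^ m * toAf f := by
    rw [← toAf_pw, ← hfg]
    rfl
  have h3 := hL m d d' hm hd hd' u H hH (toAf f) (toAf g) hfd hgd hf.2 hg.2 ((hone g).1 hg1) hrel
  simp only [← toAf_pw] at h3
  have hAk : ∀ k : ℕ, (toAf (pw g k f)).Adm ↔ Adm (pw g k f) := fun k =>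
    ⟨fun h => ⟨hpos k, h⟩, fun h => h.2⟩
  have hgood : ∀ k : ℕ, (toAf (pw g k f)).Adm → ∀ j : ℕ,
      Pool.Agent.K1H50.NP.GdI B (toAf (pw g k f)) j → Good B (pw g k f) j := by
    rintro k hk j ⟨T, hT0, hTB, hTj, hTR⟩
    refine ⟨?_, T, hT0, hTB, hTj, fun R' => ?_⟩
    · have h4 : (toAf (it (pw g k f) j)).Adm := by
        rw [toAf_it]; exact adm_pow hk j
      refine ⟨?_, h4⟩
      have h5 : (it (pw g k f) j).2 = (toAf (it (pw g k f) j)).d := rfl
      rw [h5, toAf_it, Pool.Agent.Y863.AU.Af.pow_d]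
      have h6 : 0 < (toAf (pw g k f)).d := by
        have := hpos k
        show 0 < (pw g k f).2
        omega
      have : 0 < (toAf (pw g k f)).d ^ j := by positivity
      omega
    · exact narrow_of ((hTR R').mono fun q hq => (pattern_iff _ _ _ _).2 hq)
  have hRR : ∀ k : ℕ, Pool.Agent.K1H50.NP.Rw n (toAf (pw g k f)) = R n (pw g k f) := fun k => rfl
  refine le_trans ?_ (h3.trans (le_of_eq ?_))
  · rw [Nat.cast_le]
    apply card_le_card
    intro k hk
    obtain ⟨hkI, hkA, hk1, hkn⟩ := mem_filter.1 hk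
    refine mem_filter.2 ⟨hkI, (hAk k).2 hkA, (hone _).1 hk1, lt_of_le_of_lt ?_ hkn⟩
    rw [hRR]
    apply card_le_card
    intro j hj
    obtain ⟨hj1, hj2⟩ := mem_filter.1 hj
    exact mem_filter.2 ⟨hj1, hgood k ((hAk k).2 hkA) j hj2⟩
  · congr 3
    ext k
    rw [mem_filter, mem_filter, hAk k]

end Pool.Agent.Results.MP_8bf9c2_nt.ProgressionsForAlmostAllMaps
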